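import Pool.Agent.P8H17.UL.Stm

/-!
# Project UL, package RA: the sum of two integral points with nonsingular reductions
-/

set_option autoImplicit false

open WeierstrassCurve IsLocalRing Pool.Agent.P8H17.UL

namespace Pool.Agent.P8H80.UL

/-- the basic identity on a Weierstrass equation -/
lemma key_id {R : Type} [CommRing R] {V : WeierstrassCurve R} {x₁ y₁ x₂ y₂ : R}
    (e₁ : V.toAffine.Equation x₁ y₁) (e₂ : V.toAffine.Equation x₂ y₂) :
    (y₁ - y₂) * (y₁ + y₂ + V.a₁ * x₂ + V.a₃) =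
      (x₁ - x₂) * (x₁ ^ 2 + x₁ * x₂ + x₂ ^ 2 + V.a₂ * (x₁ + x₂) + V.a₄ - V.a₁ * y₁) := by
  rw [Affine.equation_iff] at e₁ e₂
  linear_combination e₁ - e₂

/-- the slope is characterised by two equations -/
lemma slope_eq {F : Type} [Field F] [DecidableEq F] {V : WeierstrassCurve F} {x₁ y₁ x₂ y₂ l : F}
    (e₁ : V.toAffine.Equation x₁ y₁) (e₂ : V.toAffine.Equation x₂ y₂)
    (hxy : ¬ (x₁ = x₂ ∧ y₁ = V.toAffine.negY x₂ y₂))
    (h1 : l * (x₁ - x₂) = y₁ - y₂)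
    (h2 : l * (y₁ + y₂ + V.a₁ * x₂ + V.a₃) =
      x₁ ^ 2 + x₁ * x₂ + x₂ ^ 2 + V.a₂ * (x₁ + x₂) + V.a₄ - V.a₁ * y₁) :
    V.toAffine.slope x₁ x₂ y₁ y₂ = l := by
  by_cases hx : x₁ = x₂
  · have hy : y₁ ≠ V.toAffine.negY x₂ y₂ := fun h => hxy ⟨hx, h⟩
    rw [Affine.slope_of_Y_ne hx hy]
    have hy' := Affine.Y_eq_of_Y_ne e₁ e₂ hx hy
    subst hx
    subst hy'
    have hd : y₁ - V.toAffine.negY x₁ y₁ ≠ 0 := sub_ne_zero.2 hy
    rw [div_eq_iff hd, Affine.negY]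
    linear_combination -h2
  · rw [Affine.slope_of_X_ne hx, div_eq_iff (sub_ne_zero.2 hx)]
    exact h1.symm

/-- the coordinates of a point satisfy the equation over the valuation ring -/
lemma eqn_of_gn {L : Type} [Field L] {A : ValuationSubring L} {V : WeierstrassCurve A} {x y : A}
    (h : (gn V).toAffine.Nonsingular (x : L) (y : L)) : V.toAffine.Equation x y :=
  (V.toAffine.map_equation (f := A.subtype) Subtype.val_injective x y).1 h.1

/-- the equation over the residue field -/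
lemma eqn_sp {L : Type} [Field L] {A : ValuationSubring L} {V : WeierstrassCurve A} {x y : A}
    (h : V.toAffine.Equation x y) : (sp V).toAffine.Equation (residue A x) (residue A y) := by
  rw [Affine.equation_iff] at h ⊢
  have := congrArg (residue A) h
  simp only [map_add, map_mul, map_pow] at this
  simpa using this

/-- the existence of the slope in the valuation ring -/
lemma slope_exists {L : Type} [Field L] {A : ValuationSubring L} {V : WeierstrassCurve A}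
    {x₁ y₁ x₂ y₂ : A} (e₁ : V.toAffine.Equation x₁ y₁) (e₂ : V.toAffine.Equation x₂ y₂)
    (hn : ¬ (residue A x₁ = residue A x₂ ∧
      residue A y₁ = (sp V).toAffine.negY (residue A x₂) (residue A y₂))) :
    ∃ l : A, l * (x₁ - x₂) = y₁ - y₂ ∧ l * (y₁ + y₂ + V.a₁ * x₂ + V.a₃) =
      x₁ ^ 2 + x₁ * x₂ + x₂ ^ 2 + V.a₂ * (x₁ + x₂) + V.a₄ - V.a₁ * y₁ := by
  have hid := key_id e₁ e₂
  by_cases hx : residue A x₁ = residue A x₂
  · have hy : residue A y₁ ≠ (sp V).toAffine.negY (residue A x₂) (residue A y₂) :=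
      fun h => hn ⟨hx, h⟩
    have hu : IsUnit (y₁ + y₂ + V.a₁ * x₂ + V.a₃) := by
      rw [← residue_ne_zero_iff_isUnit]
      intro h0
      apply hy
      rw [map_add, map_add, map_add, map_mul] at h0
      rw [Affine.negY]
      change _ = -_ - (residue A V.a₁) * _ - (residue A V.a₃)
      linear_combination h0
    obtain ⟨u, hu⟩ := hu
    refine ⟨(x₁ ^ 2 + x₁ * x₂ + x₂ ^ 2 + V.a₂ * (x₁ + x₂) + V.a₄ - V.a₁ * y₁) * ((u⁻¹ : Aˣ) : A),
      ?_, ?_⟩
    · rw [← hu] at hid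
      have h1 : (u : A) * ((u⁻¹ : Aˣ) : A) = 1 := Units.mul_inv u
      linear_combination ((u⁻¹ : Aˣ) : A) * (-hid) + (y₁ - y₂) * h1
    · rw [← hu]
      have h1 : (u : A) * ((u⁻¹ : Aˣ) : A) = 1 := Units.mul_inv u
      linear_combination (x₁ ^ 2 + x₁ * x₂ + x₂ ^ 2 + V.a₂ * (x₁ + x₂) + V.a₄ - V.a₁ * y₁) * h1
  · have hu : IsUnit (x₁ - x₂) := by
      rw [← residue_ne_zero_iff_isUnit]
      intro h0
      apply hx
      rw [map_sub] at h0
      exact sub_eq_zero.1 h0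
    obtain ⟨u, hu⟩ := hu
    refine ⟨(y₁ - y₂) * ((u⁻¹ : Aˣ) : A), ?_, ?_⟩
    · rw [← hu]
      have h1 : (u : A) * ((u⁻¹ : Aˣ) : A) = 1 := Units.mul_inv u
      linear_combination (y₁ - y₂) * h1
    · rw [← hu] at hid
      have h1 : (u : A) * ((u⁻¹ : Aˣ) : A) = 1 := Units.mul_inv u
      linear_combination ((u⁻¹ : Aˣ) : A) * hid +
        (x₁ ^ 2 + x₁ * x₂ + x₂ ^ 2 + V.a₂ * (x₁ + x₂) + V.a₄ - V.a₁ * y₁) * h1

/-- the sum over any field to which the valuation ring maps -/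
lemma sum_eq {R F : Type} [CommRing R] [Field F] (f : R →+* F) {V : WeierstrassCurve R}
    {x₁ y₁ x₂ y₂ l : R} (h₁ : (V.map f).toAffine.Nonsingular (f x₁) (f y₁))
    (h₂ : (V.map f).toAffine.Nonsingular (f x₂) (f y₂))
    (hxy : ¬ (f x₁ = f x₂ ∧ f y₁ = (V.map f).toAffine.negY (f x₂) (f y₂)))
    (k1 : l * (x₁ - x₂) = y₁ - y₂) (k2 : l * (y₁ + y₂ + V.a₁ * x₂ + V.a₃) =
      x₁ ^ 2 + x₁ * x₂ + x₂ ^ 2 + V.a₂ * (x₁ + x₂) + V.a₄ - V.a₁ * y₁) :
    ∃ h₃ : (V.map f).toAffine.Nonsingular (f (V.toAffine.addX x₁ x₂ l))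
      (f (V.toAffine.addY x₁ x₂ y₁ l)), pt h₁ + pt h₂ = pt h₃ := by
  classical
  have hs : (V.map f).toAffine.slope (f x₁) (f x₂) (f y₁) (f y₂) = f l := by
    refine slope_eq h₁.1 h₂.1 hxy ?_ ?_
    · rw [← map_sub, ← map_mul, k1, map_sub]
    · have := congrArg f k2
      simp only [map_add, map_mul, map_sub, map_pow] at this
      simpa using this
  have h := Affine.nonsingular_add h₁ h₂ hxy
  have ex : (V.map f).toAffine.addX (f x₁) (f x₂)
      ((V.map f).toAffine.slope (f x₁) (f x₂) (f y₁) (f y₂)) = f (V.toAffine.addX x₁ x₂ l) := by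
    rw [hs]
    exact Affine.map_addX f x₁ x₂ l
  have ey : (V.map f).toAffine.addY (f x₁) (f x₂) (f y₁)
      ((V.map f).toAffine.slope (f x₁) (f x₂) (f y₁) (f y₂)) = f (V.toAffine.addY x₁ x₂ y₁ l) := by
    rw [hs]
    exact Affine.map_addY f x₁ y₁ x₂ l
  have h' := h
  rw [ex, ey] at h'
  refine ⟨h', ?_⟩
  rw [add_pt h₁ h₂ hxy]
  refine pt_congr _ _ ?_ ?_
  · convert ex
  · convert ey

theorem ra : S_RA := by
  intro L _ A V x₁ y₁ x₂ y₂ h₁ h₂ g₁ g₂ hn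
  obtain ⟨l, k1, k2⟩ := slope_exists (eqn_of_gn h₁) (eqn_of_gn h₂) hn
  have hnL : ¬ (A.subtype x₁ = A.subtype x₂ ∧
      A.subtype y₁ = (V.map A.subtype).toAffine.negY (A.subtype x₂) (A.subtype y₂)) := by
    rintro ⟨e1, e2⟩
    have e1' : x₁ = x₂ := Subtype.val_injective e1
    apply hn
    refine ⟨by rw [e1'], ?_⟩
    rw [Affine.map_negY] at e2
    have e2' : y₁ = V.toAffine.negY x₂ y₂ := Subtype.val_injective e2
    rw [e2']
    exact (Affine.map_negY (residue A) x₂ y₂).symm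
  obtain ⟨h₃, eh⟩ := sum_eq A.subtype h₁ h₂ hnL k1 k2
  obtain ⟨g₃, eg⟩ := sum_eq (residue A) g₁ g₂ hn k1 k2
  exact ⟨_, _, h₃, g₃, eh, eg⟩

end Pool.Agent.P8H80.UL
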