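import Pool.Agent.P8H80.UL.RA

/-!
# Project UL, package RB: the sum of two integral points with opposite nonsingular reductions
-/

set_option autoImplicit false

open WeierstrassCurve IsLocalRing Pool.Agent.P8H17.UL

namespace Pool.Agent.P8H80.UL

/-- the two equations satisfied by the slope -/
lemma slope_rel {F : Type} [Field F] [DecidableEq F] {V : WeierstrassCurve F} {x₁ y₁ x₂ y₂ : F}
    (e₁ : V.toAffine.Equation x₁ y₁) (e₂ : V.toAffine.Equation x₂ y₂)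
    (hxy : ¬ (x₁ = x₂ ∧ y₁ = V.toAffine.negY x₂ y₂)) :
    V.toAffine.slope x₁ x₂ y₁ y₂ * (x₁ - x₂) = y₁ - y₂ ∧
    V.toAffine.slope x₁ x₂ y₁ y₂ * (y₁ + y₂ + V.a₁ * x₂ + V.a₃) =
      x₁ ^ 2 + x₁ * x₂ + x₂ ^ 2 + V.a₂ * (x₁ + x₂) + V.a₄ - V.a₁ * y₁ := by
  have hid := key_id e₁ e₂
  by_cases hx : x₁ = x₂
  · have hy : y₁ ≠ V.toAffine.negY x₂ y₂ := fun h => hxy ⟨hx, h⟩
    rw [Affine.slope_of_Y_ne hx hy]
    have hy' := Affine.Y_eq_of_Y_ne e₁ e₂ hx hy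
    subst hx
    subst hy'
    have hd : y₁ - V.toAffine.negY x₁ y₁ ≠ 0 := sub_ne_zero.2 hy
    have hd' : y₁ + y₁ + V.a₁ * x₁ + V.a₃ = y₁ - V.toAffine.negY x₁ y₁ := by
      rw [Affine.negY]
      ring
    refine ⟨by ring, ?_⟩
    rw [hd', div_mul_cancel₀ _ hd]
    ring
  · have hx' : x₁ - x₂ ≠ 0 := sub_ne_zero.2 hx
    rw [Affine.slope_of_X_ne hx]
    refine ⟨div_mul_cancel₀ _ hx', ?_⟩
    rw [div_mul_eq_mul_div, div_eq_iff hx', hid]
    ring

theorem rb : S_RB := by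
  classical
  intro L _ A V x₁ y₁ x₂ y₂ h₁ h₂ g₁ g₂ hx hy
  by_cases hxy : (x₁ : L) = (x₂ : L) ∧ (y₁ : L) = (gn V).toAffine.negY (x₂ : L) (y₂ : L)
  · exact Or.inl (add_pt_of_eq h₁ h₂ hxy.1 hxy.2)
  refine Or.inr ⟨_, _, Affine.nonsingular_add h₁ h₂ hxy, ?_, ?_⟩
  swap
  · rw [add_pt h₁ h₂ hxy]
  obtain ⟨k1, k2⟩ := slope_rel h₁.1 h₂.1 hxy
  generalize hl : (gn V).toAffine.slope (x₁ : L) (x₂ : L) (y₁ : L) (y₂ : L) = l at k1 k2 ⊢
  have hlA : l ∉ A := by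
    intro hm
    obtain ⟨l', rfl⟩ : ∃ l' : A, (l' : L) = l := ⟨⟨l, hm⟩, rfl⟩
    have c1 : l' * (x₁ - x₂) = y₁ - y₂ := Subtype.val_injective (by simpa using k1)
    have c2 : l' * (y₁ + y₂ + V.a₁ * x₂ + V.a₃) =
        x₁ ^ 2 + x₁ * x₂ + x₂ ^ 2 + V.a₂ * (x₁ + x₂) + V.a₄ - V.a₁ * y₁ :=
      Subtype.val_injective (by simpa using k2)
    have r1 := congrArg (residue A) c1
    have r2 := congrArg (residue A) c2
    simp only [map_add, map_mul, map_sub, map_pow] at r1 r2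
    rw [Affine.negY] at hy
    change residue A y₁ = -(residue A y₂) - (residue A V.a₁) * (residue A x₂) -
      (residue A V.a₃) at hy
    have hyy : residue A y₁ = residue A y₂ := by
      rw [hx, sub_self, mul_zero] at r1
      exact (sub_eq_zero.1 r1.symm)
    have g := g₁.2
    rw [Affine.evalEval_polynomialX, Affine.evalEval_polynomialY] at g
    change (residue A V.a₁) * (residue A y₁) - (3 * (residue A x₁) ^ 2 +
      2 * (residue A V.a₂) * (residue A x₁) + (residue A V.a₄)) ≠ 0 ∨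
      2 * (residue A y₁) + (residue A V.a₁) * (residue A x₁) + (residue A V.a₃) ≠ 0 at g
    rcases g with g | g
    · apply g
      rw [hx, hyy] at r2 ⊢
      rw [hyy] at hy
      linear_combination r2 - residue A l' * hy
    · apply g
      rw [hx]
      rw [hyy] at hy ⊢
      linear_combination hy
  intro hmem
  apply hlA
  have hl' : l⁻¹ ∈ A := (A.mem_or_inv_mem l).resolve_left hlA
  have hl0 : l ≠ 0 := fun h => hlA (h ▸ A.zero_mem)
  have e : l = ((gn V).toAffine.addX (x₁ : L) (x₂ : L) l + V.a₂ + x₁ + x₂) * l⁻¹ - V.a₁ := by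
    rw [Affine.addX]
    change l = (l ^ 2 + (V.a₁ : L) * l - (V.a₂ : L) - x₁ - x₂ + V.a₂ + x₁ + x₂) * l⁻¹ - V.a₁
    field_simp
    ring
  rw [e]
  exact sub_mem (mul_mem (add_mem (add_mem (add_mem hmem V.a₂.2) x₁.2) x₂.2) hl') V.a₁.2

end Pool.Agent.P8H80.UL
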